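import Pool.Agent.MP_542436_nt.H22.Slope

set_option autoImplicit false

namespace Pool.Agent.MP_542436_nt.H22

open Polynomial Pool.Agent.MP_542436_nt.H5 Filter

theorem dvd_mul_det {r : ℕ} {g : ℤ[X]} (hg : g.natDegree ≤ r) {R m : ℤ}
    (hR : ∀ κ : ℤ, (∀ k, κ ∣ g.coeff k) → κ ∣ R) (hm : m ≠ 0) (f : Fin (r + 1) → ℤ × ℤ)
    (hf : ∀ j, m ∣ hv g r (f j)) :
    m ∣ R * (Matrix.projVandermonde (fun j => (f j).1) (fun j => (f j).2)).det := by
  set M := Matrix.projVandermonde (fun j => (f j).1) (fun j => (f j).2) with hM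
  have h1 : ∀ j, M.mulVec (fun k : Fin (r + 1) => g.coeff k) j = hv g r (f j) := by
    intro j
    simp only [Matrix.mulVec, dotProduct, hM, Matrix.projVandermonde_apply, hv]
    rw [Finset.sum_range (fun k => g.coeff k * (f j).1 ^ k * (f j).2 ^ (r - k))]
    refine Finset.sum_congr rfl fun k _ => ?_
    rw [Fin.val_rev, show r + 1 - (k + 1) = r - k by omega]
    ring
  have h2 : ∀ k : Fin (r + 1), m ∣ M.det * g.coeff k := by
    intro k
    have e : M.adjugate.mulVec (M.mulVec (fun k : Fin (r + 1) => g.coeff k)) k =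
        M.det * g.coeff k := by
      rw [Matrix.mulVec_mulVec, Matrix.adjugate_mul, Matrix.smul_mulVec, Matrix.one_mulVec]
      simp
    rw [← e]
    simp only [Matrix.mulVec, dotProduct] at h1 ⊢
    exact Finset.dvd_sum fun j _ => Dvd.dvd.mul_left (by rw [h1]; exact hf j) _
  have h3 : ∀ k, m ∣ M.det * g.coeff k := by
    intro k
    by_cases hk : k < r + 1
    · exact h2 ⟨k, hk⟩
    · rw [coeff_eq_zero_of_natDegree_lt (by omega)]
      simp
  have hgcd : 0 < Int.gcd m M.det := Int.gcd_pos_of_ne_zero_left _ hm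
  obtain ⟨d, m', V', hd, hco, e1, e2⟩ := Int.exists_gcd_one' hgcd
  have hd' : (d : ℤ) ≠ 0 := by exact_mod_cast hd.ne'
  have h4 : ∀ k, m' ∣ g.coeff k := by
    intro k
    have h := h3 k
    rw [e1, e2, show V' * d * g.coeff k = V' * g.coeff k * d by ring] at h
    exact Int.dvd_of_dvd_mul_right_of_gcd_one ((mul_dvd_mul_iff_right hd').1 h) hco
  rw [e1, e2, show R * (V' * d) = R * V' * d by ring]
  exact mul_dvd_mul_right (Dvd.dvd.mul_right (hR m' h4) _) _

theorem abs_det_le {n : ℕ} (f : Fin n → ℤ × ℤ) {W : ℝ} (hW : 1 ≤ W)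
    (h : ∀ i j, |(dt (f i) (f j) : ℝ)| ≤ W) :
    |((Matrix.projVandermonde (fun j => (f j).1) (fun j => (f j).2)).det : ℝ)| ≤ W ^ (n * n) := by
  rw [Matrix.det_projVandermonde]
  push_cast
  rw [Finset.abs_prod, pow_mul]
  calc _ ≤ ∏ _i : Fin n, W ^ n := by
        refine Finset.prod_le_prod (fun _ _ => abs_nonneg _) fun i _ => ?_
        rw [Finset.abs_prod]
        calc _ ≤ ∏ _j ∈ Finset.Ioi i, W := by
              refine Finset.prod_le_prod (fun _ _ => abs_nonneg _) fun j _ => ?_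
              have := h j i
              simp only [dt] at this
              push_cast at this
              rwa [mul_comm ((f j).2 : ℝ)] at this
          _ ≤ W ^ n := by
              rw [Finset.prod_const]
              refine pow_le_pow_right₀ hW ?_
              simpa using Finset.card_le_univ (Finset.Ioi i)
    _ = _ := by simp

theorem det_ne_zero {n : ℕ} (f : Fin n → ℤ × ℤ) (h : ∀ i j, i ≠ j → dt (f i) (f j) ≠ 0) :
    (Matrix.projVandermonde (fun j => (f j).1) (fun j => (f j).2)).det ≠ 0 := by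
  rw [Matrix.det_projVandermonde]
  refine Finset.prod_ne_zero_iff.2 fun i _ => Finset.prod_ne_zero_iff.2 fun j hj => ?_
  have := h j i (Finset.mem_Ioi.1 hj).ne'
  simp only [dt] at this
  rwa [mul_comm (f j).2] at this

theorem abs_hv_le {r c B : ℕ} {g : ℤ[X]} (hc : ∀ k, |g.coeff k| ≤ (B : ℤ) ^ c) {t : ℤ × ℤ}
    (ht : t ∈ box B) : |hv g r t| ≤ (((r + 1) * B ^ (c + r) : ℕ) : ℤ) := by
  obtain ⟨h1, h2, -⟩ := mem_box.1 ht
  unfold hv
  refine (Finset.abs_sum_le_sum_abs _ _).trans ?_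
  calc _ ≤ ∑ _k ∈ Finset.range (r + 1), (B : ℤ) ^ (c + r) := by
        refine Finset.sum_le_sum fun k hk => ?_
        have hk' : k ≤ r := Nat.lt_succ_iff.1 (Finset.mem_range.1 hk)
        rw [abs_mul, abs_mul, abs_pow, abs_pow,
          show c + r = c + k + (r - k) by omega, pow_add, pow_add]
        have := hc k
        gcongr
    _ = _ := by simp

theorem ev_le (a κ : ℝ) (hκ : 0 < κ) : ∀ᶠ B : ℕ in atTop, a ≤ (B : ℝ) ^ κ :=
  ((tendsto_rpow_atTop hκ).comp tendsto_natCast_atTop_atTop).eventually_ge_atTop a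

theorem fewA : SlopeStmt → SmoothStmt → Few PA := by
  classical
  intro hsl hsm r c R η hr hR hη hη4
  set ρ : ℕ := (r + 1) * (r + 1) with hρ
  have hρ1 : (1 : ℝ) ≤ ρ := by
    have : 1 ≤ ρ := Nat.mul_pos (by omega) (by omega)
    exact_mod_cast this
  set κ : ℝ := η / (2 * ρ) with hκ
  have hκ0 : 0 < κ := by positivity
  have hκ2 : κ ≤ 2 := by
    rw [hκ, div_le_iff₀ (by positivity)]
    nlinarith
  set E : ℕ := 2 * c + r + 1 with hE
  have hE0 : (0 : ℝ) < E := by positivity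
  obtain ⟨K, hK, hKs⟩ := hsm (κ / (2 * E)) (by positivity)
  have hev := (ev_le R (η / 2) (by positivity)).and
    ((ev_le (12 * r * K) (κ / 4) (by positivity)).and (eventually_ge_atTop (r + 1)))
  obtain ⟨B0, hB0⟩ := eventually_atTop.1 hev
  refine ⟨κ / 4, by positivity, B0, fun B hB g D hA => ?_⟩
  obtain ⟨hB1, hB2, hB3⟩ := hB0 B hB
  have hBR : (1 : ℝ) ≤ B := by
    have : 1 ≤ B := by omega
    exact_mod_cast this
  have hBp : (0 : ℝ) < B := by linarith
  set W : ℝ := (B : ℝ) ^ κ with hWdef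
  have hW1 : 1 ≤ W := Real.one_le_rpow hBR hκ0.le
  have hW0 : 0 < W := by linarith
  set Y : ℕ := (r + 1) * B ^ (c + r) with hY
  set Ms := (Finset.Icc 1 Y).filter (fun m => ∀ p : ℕ, p.Prime → p ∣ m → p ∣ D.natAbs) with hMs
  set T : ℕ → Finset (ℤ × ℤ) := fun m =>
    (box B).filter (fun t => (m : ℤ) ∣ hv g r t ∧ (B : ℝ) ^ η < m) with hT
  have hsub : (box B).filter (fun t => hv g r t ≠ 0 ∧ PA η B D (hv g r t)) ⊆ Ms.biUnion T := by
    intro t ht
    obtain ⟨ht, h0, m, hm1, hm2, hm3⟩ := Finset.mem_filter.1 ht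
    refine Finset.mem_biUnion.2 ⟨m, Finset.mem_filter.2 ⟨Finset.mem_Icc.2 ⟨?_, ?_⟩, ?_⟩,
      Finset.mem_filter.2 ⟨ht, hm1, hm3⟩⟩
    · have : (0 : ℝ) < m := lt_trans (by positivity) hm3
      exact_mod_cast this
    · have h1 := Int.le_of_dvd (abs_pos.2 h0) ((dvd_abs _ _).2 hm1)
      have h2 := abs_hv_le (r := r) hA.coeff_le ht
      exact_mod_cast h1.trans h2
    · intro p hp hpm
      exact Int.natCast_dvd.1 (hm2 p hp hpm)
  have hTm : ∀ m, ((T m).card : ℝ) ≤ 12 * r * (B : ℝ) ^ (2 - κ) := by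
    intro m
    have h1 := hsl r B W hW0 (T m) (Finset.filter_subset _ _) (fun f hf hne => by
      by_contra hc
      push Not at hc
      have hm3 : (B : ℝ) ^ η < m := (Finset.mem_filter.1 (hf 0)).2.2
      have hm0 : (m : ℤ) ≠ 0 := by
        have : (0 : ℝ) < m := lt_trans (by positivity) hm3
        have : 0 < m := by exact_mod_cast this
        omega
      have hd := dvd_mul_det hA.deg hA.cont hm0 f
        (fun j => (Finset.mem_filter.1 (hf j)).2.1)
      have hne' := det_ne_zero f hne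
      have hle := abs_det_le f hW1 (fun i j => (hc i j).le)
      set V := (Matrix.projVandermonde (fun j => (f j).1) (fun j => (f j).2)).det
      have hRV : (R : ℤ) * V ≠ 0 := mul_ne_zero (by omega) hne'
      have h2 := Int.le_of_dvd (abs_pos.2 hRV) ((dvd_abs _ _).2 hd)
      have h3 : (m : ℝ) ≤ R * |(V : ℝ)| := by
        have : ((m : ℤ) : ℝ) ≤ ((|(R : ℤ) * V| : ℤ) : ℝ) := by exact_mod_cast h2
        push_cast at this
        rwa [abs_mul, Nat.abs_cast] at this
      have h4 : W ^ ((r + 1) * (r + 1)) = (B : ℝ) ^ (η / 2) := by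
        rw [hWdef, ← Real.rpow_natCast, ← Real.rpow_mul hBp.le, ← hρ, hκ]
        congr 1
        field_simp
      have h5 : (B : ℝ) ^ η = (B : ℝ) ^ (η / 2) * (B : ℝ) ^ (η / 2) := by
        rw [← Real.rpow_add hBp]; congr 1; ring
      have h6 : (R : ℝ) * |(V : ℝ)| ≤ (B : ℝ) ^ (η / 2) * (B : ℝ) ^ (η / 2) := by
        rw [h4] at hle
        gcongr
      linarith)
    have h2 : (B : ℝ) ^ 2 / W = (B : ℝ) ^ (2 - κ) := by
      rw [Real.rpow_sub hBp, hWdef]
      norm_num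
    have h3 : 1 ≤ (B : ℝ) ^ (2 - κ) := Real.one_le_rpow hBR (by linarith)
    rw [mul_div_assoc, h2] at h1
    have hr0 : (0 : ℝ) ≤ r := by positivity
    nlinarith
  have hD0 : D.natAbs ≠ 0 := Int.natAbs_ne_zero.2 hA.D_ne
  have hM : (Ms.card : ℝ) ≤ K * (B : ℝ) ^ (κ / 2) := by
    refine (hKs D.natAbs Y hD0).trans ?_
    have h1 : (Y : ℝ) * D.natAbs ≤ (B : ℝ) ^ E := by
      have h2 : (D.natAbs : ℝ) ≤ (B : ℝ) ^ c := by
        have := hA.D_le
        rw [← Int.natCast_natAbs] at this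
        exact_mod_cast this
      have h3 : ((r : ℝ) + 1) ≤ B := by exact_mod_cast hB3
      have h5 : (B : ℝ) ^ E = B * (B : ℝ) ^ (c + r) * (B : ℝ) ^ c := by rw [hE]; ring
      rw [hY, h5]
      push_cast
      gcongr
    have h4 : ((B : ℝ) ^ E) ^ (κ / (2 * E)) = (B : ℝ) ^ (κ / 2) := by
      rw [← Real.rpow_natCast, ← Real.rpow_mul hBp.le]
      congr 1
      field_simp
    rw [← h4]
    gcongr
  have hcard : (((box B).filter (fun t => hv g r t ≠ 0 ∧ PA η B D (hv g r t))).card : ℝ) ≤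
      ∑ m ∈ Ms, ((T m).card : ℝ) := by
    exact_mod_cast (Finset.card_le_card hsub).trans Finset.card_biUnion_le
  refine le_trans (by convert hcard) ?_
  calc ∑ m ∈ Ms, ((T m).card : ℝ) ≤ ∑ _m ∈ Ms, 12 * r * (B : ℝ) ^ (2 - κ) :=
        Finset.sum_le_sum fun m _ => hTm m
    _ = Ms.card * (12 * r * (B : ℝ) ^ (2 - κ)) := by simp
    _ ≤ K * (B : ℝ) ^ (κ / 2) * (12 * r * (B : ℝ) ^ (2 - κ)) := by gcongr
    _ = 12 * r * K * ((B : ℝ) ^ (κ / 2) * (B : ℝ) ^ (2 - κ)) := by ring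
    _ ≤ (B : ℝ) ^ (κ / 4) * ((B : ℝ) ^ (κ / 2) * (B : ℝ) ^ (2 - κ)) := by gcongr
    _ = (B : ℝ) ^ (2 - κ / 4) := by
        rw [← Real.rpow_add hBp, ← Real.rpow_add hBp]; congr 1; ring

end Pool.Agent.MP_542436_nt.H22
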