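import Pool.Agent.MP_542436_nt.Sp.Spec

set_option autoImplicit false

namespace Pool.Agent.MP_542436_nt.H22

open Polynomial NumberField Finset

/-- A box of polynomials. -/
theorem pbox_ex (R : Type) [Semiring R] (e : ℕ) (E : ℕ → Finset R) :
    ∃ S : Finset R[X], S.card = ∏ i ∈ range e, (E i).card ∧
      ∀ p, p ∈ S ↔ (∀ i, i < e → p.coeff i ∈ E i) ∧ (∀ i, e ≤ i → p.coeff i = 0) := by
  classical
  refine ⟨(Fintype.piFinset (fun i : Fin e => E i)).image (ofFn e), ?_, fun p => ?_⟩
  · rw [Finset.card_image_of_injective _ (injective_ofFn e), Fintype.card_piFinset]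
    exact Fin.prod_univ_eq_prod_range (fun i => (E i).card) e
  · simp only [Finset.mem_image, Fintype.mem_piFinset]
    constructor
    · rintro ⟨v, hv, rfl⟩
      refine ⟨fun i hi => ?_, fun i hi => ofFn_coeff_eq_zero_of_ge v hi⟩
      rw [ofFn_coeff_eq_val_of_lt v hi]
      exact hv ⟨i, hi⟩
    · rintro ⟨h1, h2⟩
      refine ⟨fun i => p.coeff i, fun i => h1 i i.2, ?_⟩
      ext i
      by_cases hi : i < e
      · rw [ofFn_coeff_eq_val_of_lt _ hi]
      · rw [ofFn_coeff_eq_zero_of_ge _ (not_lt.1 hi), h2 i (not_lt.1 hi)]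

/-- Pigeonhole: some fibre is large. -/
theorem fibre_ex {α β : Type} [DecidableEq β] (S : Finset α) (T : Finset β) (φ : α → β)
    (hS : S.Nonempty) (hφ : ∀ a ∈ S, φ a ∈ T) :
    ∃ a0 ∈ S, S.card ≤ T.card * (S.filter (fun a => φ a = φ a0)).card := by
  classical
  obtain ⟨a0, ha0, hmax⟩ := S.exists_max_image (fun a => (S.filter (fun b => φ b = φ a)).card) hS
  refine ⟨a0, ha0, ?_⟩
  rw [Finset.card_eq_sum_card_fiberwise (f := φ) (t := T) (fun a ha => hφ a ha)]
  rw [← smul_eq_mul]
  apply Finset.sum_le_card_nsmul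
  intro y _
  by_cases h : (S.filter (fun a => φ a = y)).Nonempty
  · obtain ⟨a, ha⟩ := h
    rw [Finset.mem_filter] at ha
    rw [← ha.2]
    exact hmax a ha.1
  · rw [Finset.not_nonempty_iff_eq_empty.1 h]
    simp

/-- Many integers of small house. -/
theorem low_ex (K : Type) [Field K] [NumberField K] :
    ∃ c : ℝ, 0 < c ∧ ∀ U : ℝ, 0 ≤ U → ∃ E : Finset K,
      c * U ^ Module.finrank ℚ K ≤ E.card ∧ E.Nonempty ∧
        ∀ α ∈ E, IsIntegral ℤ α ∧ house α ≤ U := by
  classical
  set b := integralBasis K with hb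
  set C : ℝ := 1 + ∑ i, house (b i) with hC
  have hC0 : 0 < C := by
    have : 0 ≤ ∑ i, house (b i) := Finset.sum_nonneg fun i _ => house_nonneg _
    linarith
  have hcard : Fintype.card (Module.Free.ChooseBasisIndex ℤ (𝓞 K)) = Module.finrank ℚ K :=
    (Module.finrank_eq_card_basis b).symm
  refine ⟨(1 / C) ^ Module.finrank ℚ K, by positivity, fun U hU => ?_⟩
  set N : ℕ := ⌊U / C⌋₊ with hN
  have hinj : Function.Injective
      (fun c : Module.Free.ChooseBasisIndex ℤ (𝓞 K) → ℕ => ∑ i, (c i : K) * b i) := by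
    intro c c' h
    have h1 : ∑ i, ((c i : ℚ)) • b i = ∑ i, ((c' i : ℚ)) • b i := by
      simpa [Algebra.smul_def] using h
    funext i
    have h2 := congrArg (fun x => b.repr x i) h1
    simp only [map_sum, map_smul, Module.Basis.repr_self, Finsupp.finsetSum_apply,
      Finsupp.smul_apply, Finsupp.single_apply, smul_eq_mul, mul_ite, mul_one, mul_zero,
      Finset.sum_ite_eq', Finset.mem_univ, if_true] at h2
    exact_mod_cast h2
  refine ⟨(Fintype.piFinset (fun _ => range (N + 1))).image
    (fun c : Module.Free.ChooseBasisIndex ℤ (𝓞 K) → ℕ => ∑ i, (c i : K) * b i), ?_, ?_, ?_⟩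
  · rw [Finset.card_image_of_injective _ hinj, Fintype.card_piFinset]
    simp only [card_range, prod_const, card_univ, hcard]
    rw [← mul_pow]
    push_cast
    apply pow_le_pow_left₀ (by positivity)
    have := Nat.lt_floor_add_one (U / C)
    rw [one_div, inv_mul_eq_div]
    exact this.le
  · exact ⟨_, Finset.mem_image.2 ⟨fun _ => 0, by simp, rfl⟩⟩
  · intro α hα
    obtain ⟨c, hc, rfl⟩ := Finset.mem_image.1 hα
    rw [Fintype.mem_piFinset] at hc
    constructor
    · apply IsIntegral.sum
      intro i _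
      apply IsIntegral.mul
      · exact isIntegral_natCast _
      · rw [hb, integralBasis_apply]
        exact RingOfIntegers.isIntegral_coe _
    · have hNU : (N : ℝ) ≤ U / C := Nat.floor_le (by positivity)
      calc house (∑ i, (c i : K) * b i) ≤ ∑ i, house ((c i : K) * b i) :=
            house_sum_le_sum_house _ _
        _ ≤ ∑ i, (N : ℝ) * house (b i) := by
            apply Finset.sum_le_sum
            intro i _
            rw [house_nat_mul]
            apply mul_le_mul_of_nonneg_right _ (house_nonneg _)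
            have := hc i
            rw [mem_range] at this
            exact_mod_cast Nat.lt_succ_iff.1 this
        _ = (N : ℝ) * ∑ i, house (b i) := by rw [Finset.mul_sum]
        _ ≤ (U / C) * C := by
            apply mul_le_mul hNU (by linarith)
              (Finset.sum_nonneg fun i _ => house_nonneg _) (by positivity)
        _ = U := by field_simp

/-- Few integers of small house. -/
theorem upp_ex (K : Type) [Field K] [NumberField K] :
    ∃ C : ℝ, 0 < C ∧ ∀ V : ℝ, 1 ≤ V → ∃ E : Finset K,
      (E.card : ℝ) ≤ C * V ^ Module.finrank ℚ K ∧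
        ∀ α, IsIntegral ℤ α → house α ≤ V → α ∈ E := by
  classical
  obtain ⟨c0, hc0⟩ : ∃ c0 : ℝ, ∀ (α : 𝓞 K) (i : K →+* ℂ),
      ‖(((integralBasis K).reindex (equivReindex K).symm).repr α i : ℂ)‖ ≤
        c0 * house (algebraMap (𝓞 K) K α) :=
    ⟨_, fun α i => house.basis_repr_norm_le_const_mul_house K α i⟩
  set b := integralBasis K with hb
  have hcard : Fintype.card (Module.Free.ChooseBasisIndex ℤ (𝓞 K)) = Module.finrank ℚ K :=
    (Module.finrank_eq_card_basis b).symm
  refine ⟨(2 * |c0| + 3) ^ Module.finrank ℚ K, by positivity, fun V hV => ?_⟩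
  set N : ℕ := ⌈|c0| * V⌉₊ with hN
  refine ⟨(Fintype.piFinset (fun _ => Icc (-(N : ℤ)) N)).image
    (fun c : Module.Free.ChooseBasisIndex ℤ (𝓞 K) → ℤ => ∑ i, (c i : K) * b i), ?_, ?_⟩
  · have h1 := Finset.card_image_le (s := Fintype.piFinset (fun _ => Icc (-(N : ℤ)) N))
      (f := fun c : Module.Free.ChooseBasisIndex ℤ (𝓞 K) → ℤ => ∑ i, (c i : K) * b i)
    rw [Fintype.card_piFinset] at h1
    simp only [Int.card_Icc, prod_const, card_univ, hcard] at h1
    have h2 : ((N : ℤ) + 1 - -(N : ℤ)).toNat = 2 * N + 1 := by omega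
    rw [h2] at h1
    have h3 : (N : ℝ) < |c0| * V + 1 := Nat.ceil_lt_add_one (by positivity)
    calc _ ≤ (((2 * N + 1) ^ Module.finrank ℚ K : ℕ) : ℝ) := by exact_mod_cast h1
      _ ≤ _ := by
        rw [← mul_pow]
        push_cast
        apply pow_le_pow_left₀ (by positivity)
        nlinarith [abs_nonneg c0]
  · intro α hα hV'
    set a : 𝓞 K := ⟨α, hα⟩ with ha
    have hαa : α = algebraMap (𝓞 K) K a := rfl
    refine Finset.mem_image.2 ⟨fun i => (RingOfIntegers.basis K).repr a i, ?_, ?_⟩
    · rw [Fintype.mem_piFinset]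
      intro i
      have h1 := hc0 a ((equivReindex K).symm i)
      have h2 : ((integralBasis K).reindex (equivReindex K).symm).repr (a : K)
          ((equivReindex K).symm i) = ((RingOfIntegers.basis K).repr a i : ℤ) := by
        rw [Module.Basis.repr_reindex_apply]
        simp only [Equiv.symm_symm, Equiv.apply_symm_apply]
        exact integralBasis_repr_apply K a i
      rw [h2] at h1
      have h3 : |(((RingOfIntegers.basis K).repr a i : ℤ) : ℝ)| ≤ N := by
        have h4 : ‖((((RingOfIntegers.basis K).repr a i : ℤ) : ℚ) : ℂ)‖ =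
            |(((RingOfIntegers.basis K).repr a i : ℤ) : ℝ)| := by
          rw [Rat.cast_intCast, Complex.norm_intCast]
        rw [h4, ← hαa] at h1
        calc _ ≤ c0 * house α := h1
          _ ≤ |c0| * V := mul_le_mul (le_abs_self _) hV' (house_nonneg _) (abs_nonneg _)
          _ ≤ N := Nat.le_ceil _
      have h5 : |(RingOfIntegers.basis K).repr a i| ≤ (N : ℤ) := by exact_mod_cast h3
      rw [mem_Icc]
      exact abs_le.1 h5
    · have h1 := congrArg (algebraMap (𝓞 K) K) ((RingOfIntegers.basis K).sum_repr a)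
      rw [← hαa, map_sum] at h1
      rw [← h1]
      apply Finset.sum_congr rfl
      intro i _
      rw [hb, integralBasis_apply]
      simp [Algebra.smul_def]

end Pool.Agent.MP_542436_nt.H22
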