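import Pool.Agent.MP_542436_nt.H22.SgA

set_option autoImplicit false

namespace Pool.Agent.MP_542436_nt.H22

open Polynomial NumberField Finset
open Pool.Agent.MP_542436_nt.Sp

variable {K : Type} [Field K] [NumberField K]

/-- Integral polynomial of degree at most `e` with weighted coefficient bound `V`. -/
def Bd (A B : ℝ) (e : ℕ) (V : ℝ) (p : K[X]) : Prop :=
  ∀ i, IsIntegral ℤ (p.coeff i) ∧ (i ≤ e → house (p.coeff i) * A ^ i * B ^ (e - i) ≤ V) ∧
    (e < i → p.coeff i = 0)

theorem house_zero' : house (0 : K) = 0 := by simp [house]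

theorem house_sub_le (α β : K) : house (α - β) ≤ house α + house β := by
  simp only [house, map_sub]
  exact norm_sub_le _ _

theorem Bd.step {A B T V : ℝ} {e : ℕ} {ζ0 ζ1 : K} {p : K[X]} (hA : 0 < A) (hB : 0 < B)
    (i0 : IsIntegral ℤ ζ0) (i1 : IsIntegral ℤ ζ1) (h0 : house ζ0 * A ≤ T)
    (h1 : house ζ1 * B ≤ T) (hp : Bd A B e V p) :
    Bd A B (e + 1) (2 * T * V) ((C ζ0 * X + C ζ1) * p) := by
  have hT : 0 ≤ T := le_trans (mul_nonneg (house_nonneg _) hA.le) h0
  have hV : 0 ≤ V := le_trans (by have := house_nonneg (p.coeff 0); positivity)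
    ((hp 0).2.1 (Nat.zero_le _))
  have hTV : 0 ≤ T * V := mul_nonneg hT hV
  intro i
  cases i with
  | zero =>
    have e1 : ((C ζ0 * X + C ζ1) * p).coeff 0 = ζ1 * p.coeff 0 := by
      simp [mul_coeff_zero]
    rw [e1]
    refine ⟨i1.mul (hp 0).1, fun _ => ?_, fun h => absurd h (by omega)⟩
    have h2 := (hp 0).2.1 (Nat.zero_le _)
    have h3 := house_mul_le ζ1 (p.coeff 0)
    simp only [pow_zero, mul_one, Nat.sub_zero] at h2 ⊢
    calc house (ζ1 * p.coeff 0) * B ^ (e + 1)
        ≤ (house ζ1 * house (p.coeff 0)) * B ^ (e + 1) := by gcongr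
      _ = (house ζ1 * B) * (house (p.coeff 0) * B ^ e) := by ring
      _ ≤ T * V := mul_le_mul h1 h2 (by have := house_nonneg (p.coeff 0); positivity) hT
      _ ≤ 2 * T * V := by nlinarith
  | succ i =>
    have e1 : ((C ζ0 * X + C ζ1) * p).coeff (i + 1) = ζ0 * p.coeff i + ζ1 * p.coeff (i + 1) := by
      rw [add_mul, coeff_add, mul_assoc, coeff_C_mul, coeff_X_mul, coeff_C_mul]
    rw [e1]
    refine ⟨(i0.mul (hp i).1).add (i1.mul (hp (i + 1)).1), fun hi => ?_, fun h => ?_⟩
    · have hi' : i ≤ e := by omega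
      have a1 : house (ζ0 * p.coeff i) * A ^ (i + 1) * B ^ (e + 1 - (i + 1)) ≤ T * V := by
        have h2 := (hp i).2.1 hi'
        have h3 := house_mul_le ζ0 (p.coeff i)
        rw [Nat.add_sub_add_right]
        calc _ ≤ (house ζ0 * house (p.coeff i)) * A ^ (i + 1) * B ^ (e - i) := by gcongr
          _ = (house ζ0 * A) * (house (p.coeff i) * A ^ i * B ^ (e - i)) := by ring
          _ ≤ T * V := mul_le_mul h0 h2 (by have := house_nonneg (p.coeff i); positivity) hT
      have a2 : house (ζ1 * p.coeff (i + 1)) * A ^ (i + 1) * B ^ (e + 1 - (i + 1)) ≤ T * V := by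
        by_cases hi2 : i + 1 ≤ e
        · have h2 := (hp (i + 1)).2.1 hi2
          have h3 := house_mul_le ζ1 (p.coeff (i + 1))
          have h4 : e + 1 - (i + 1) = (e - (i + 1)) + 1 := by omega
          rw [h4]
          calc _ ≤ (house ζ1 * house (p.coeff (i + 1))) * A ^ (i + 1) * B ^ (e - (i + 1) + 1) := by
                gcongr
            _ = (house ζ1 * B) * (house (p.coeff (i + 1)) * A ^ (i + 1) * B ^ (e - (i + 1))) := by
                ring
            _ ≤ T * V :=
                mul_le_mul h1 h2 (by have := house_nonneg (p.coeff (i + 1)); positivity) hT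
        · rw [(hp (i + 1)).2.2 (by omega), mul_zero, house_zero']
          simpa using hTV
      have h5 := house_add_le (ζ0 * p.coeff i) (ζ1 * p.coeff (i + 1))
      calc _ ≤ (house (ζ0 * p.coeff i) + house (ζ1 * p.coeff (i + 1))) * A ^ (i + 1) *
            B ^ (e + 1 - (i + 1)) := by gcongr
        _ ≤ T * V + T * V := by rw [add_mul, add_mul]; exact add_le_add a1 a2
        _ = 2 * T * V := by ring
    · rw [(hp i).2.2 (by omega), (hp (i + 1)).2.2 (by omega)]
      simp

theorem Bd.pow {A B T V : ℝ} {e : ℕ} {ζ0 ζ1 : K} {p : K[X]} (hA : 0 < A) (hB : 0 < B)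
    (i0 : IsIntegral ℤ ζ0) (i1 : IsIntegral ℤ ζ1) (h0 : house ζ0 * A ≤ T)
    (h1 : house ζ1 * B ≤ T) (hp : Bd A B e V p) (ρ : ℕ) :
    Bd A B (e + ρ) ((2 * T) ^ ρ * V) ((C ζ0 * X + C ζ1) ^ ρ * p) := by
  induction ρ with
  | zero => simpa using hp
  | succ ρ ih =>
    have := ih.step hA hB i0 i1 h0 h1
    rw [pow_succ', pow_succ', mul_assoc, mul_assoc (C ζ0 * X + C ζ1)]
    rw [← add_assoc]
    exact this

theorem Bd.sub {A B V V' : ℝ} {e : ℕ} {p q : K[X]} (hA : 0 < A) (hB : 0 < B)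
    (hp : Bd A B e V p) (hq : Bd A B e V' q) : Bd A B e (V + V') (p - q) := by
  intro i
  rw [coeff_sub]
  refine ⟨(hp i).1.sub (hq i).1, fun hi => ?_, fun hi => ?_⟩
  · have h1 := house_sub_le (p.coeff i) (q.coeff i)
    calc _ ≤ (house (p.coeff i) + house (q.coeff i)) * A ^ i * B ^ (e - i) := by gcongr
      _ ≤ V + V' := by
        rw [add_mul, add_mul]
        exact add_le_add ((hp i).2.1 hi) ((hq i).2.1 hi)
  · rw [(hp i).2.2 hi, (hq i).2.2 hi, sub_zero]

theorem Bd.mono {A B V V' : ℝ} {e : ℕ} {p : K[X]} (hp : Bd A B e V p) (h : V ≤ V') :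
    Bd A B e V' p :=
  fun i => ⟨(hp i).1, fun hi => ((hp i).2.1 hi).trans h, (hp i).2.2⟩

omit [NumberField K] in
theorem tay_coeff (θ : K) (n : ℕ) (f : ℤ[X][X]) (hf : ∀ k, n + 1 ≤ k → f.coeff k = 0)
    (j i : ℕ) : ((taylor (C θ) (up K f)).coeff j).coeff i =
      ∑ k ∈ range (n + 1), ((cf f i k : ℤ) : K) * (θ ^ (k - j) * (k.choose j : K)) := by
  have h1 : up K f = ∑ k ∈ range (n + 1), monomial k ((f.coeff k).map (Int.castRingHom K)) := by
    ext k : 1
    rw [finsetSum_coeff]
    simp only [coeff_monomial, up, coeff_map, coe_mapRingHom, Finset.sum_ite_eq', mem_range]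
    split_ifs with h
    · rfl
    · rw [hf k (by omega), Polynomial.map_zero]
  rw [h1, map_sum, finsetSum_coeff, finsetSum_coeff]
  apply Finset.sum_congr rfl
  intro k _
  rw [taylor_monomial, coeff_C_mul, coeff_X_add_C_pow, ← C_pow, ← map_natCast (C : K →+* K[X]),
    ← C_mul, coeff_mul_C, coeff_map]
  rfl

theorem tay_bd (θ : K) (hθ : IsIntegral ℤ θ) (m n j : ℕ) {A B W : ℝ} (hA : 0 < A) (hB : 0 < B)
    (f : ℤ[X][X]) (hf : Dg (m + 1) (n + 1) f) (hN : Nb m A B W f) :
    Bd A B m ((∑ k ∈ range (n + 1), house (θ ^ (k - j) * (k.choose j : K))) * W)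
      ((taylor (C θ) (up K f)).coeff j) := by
  have h0 : ∀ k, n + 1 ≤ k → f.coeff k = 0 := by
    intro k hk
    ext i
    by_contra h
    have := (hf i k h).2
    omega
  intro i
  rw [tay_coeff θ n f h0]
  refine ⟨?_, fun hi => ?_, fun hi => ?_⟩
  · apply IsIntegral.sum
    intro k _
    exact (isIntegral_intCast _).mul ((hθ.pow _).mul (isIntegral_natCast _))
  · have h1 := house_sum_le_sum_house (range (n + 1))
      (fun k => ((cf f i k : ℤ) : K) * (θ ^ (k - j) * (k.choose j : K)))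
    calc _ ≤ (∑ k ∈ range (n + 1), house (((cf f i k : ℤ) : K) *
          (θ ^ (k - j) * (k.choose j : K)))) * A ^ i * B ^ (m - i) := by gcongr
      _ ≤ _ := by
        rw [Finset.sum_mul, Finset.sum_mul, Finset.sum_mul]
        apply Finset.sum_le_sum
        intro k _
        have h2 := house_mul_le ((cf f i k : ℤ) : K) (θ ^ (k - j) * (k.choose j : K))
        rw [house_intCast] at h2
        have h3 := hN i k hi
        calc _ ≤ (((|cf f i k| : ℤ) : ℝ) * house (θ ^ (k - j) * (k.choose j : K))) * A ^ i *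
              B ^ (m - i) := by gcongr
          _ = house (θ ^ (k - j) * (k.choose j : K)) *
              (|((cf f i k : ℤ) : ℝ)| * A ^ i * B ^ (m - i)) := by push_cast; ring
          _ ≤ _ := mul_le_mul_of_nonneg_left h3 (house_nonneg _)
  · apply Finset.sum_eq_zero
    intro k _
    have : cf f i k = 0 := by
      by_contra h
      have := (hf i k h).1
      omega
    rw [this]
    simp

/-- The product of the weights. -/
theorem prod_w (X : ℝ) (hX : 0 < X) (x1 x2 u : ℝ) (e : ℕ) :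
    ∏ i ∈ range (e + 1), X ^ u / ((X ^ x1) ^ i * (X ^ x2) ^ (e - i)) =
      X ^ (((e : ℝ) + 1) * (u - e * ((x1 + x2) / 2))) := by
  have h1 : ∀ i ∈ range (e + 1), X ^ u / ((X ^ x1) ^ i * (X ^ x2) ^ (e - i)) =
      X ^ (u - (x1 * i + x2 * ((e : ℝ) - i))) := by
    intro i hi
    have hi' : i ≤ e := by simpa [Nat.lt_succ_iff] using hi
    rw [Real.rpow_sub hX, Real.rpow_add hX, ← Real.rpow_natCast, ← Real.rpow_natCast,
      ← Real.rpow_mul hX.le, ← Real.rpow_mul hX.le, Nat.cast_sub hi']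
  rw [Finset.prod_congr rfl h1, ← Real.rpow_sum_of_pos hX]
  congr 1
  have h2 : ∀ N : ℕ, ∑ i ∈ range N, (u - (x1 * i + x2 * ((e : ℝ) - i))) =
      N * (u - x2 * e) - (x1 - x2) * (N * (N - 1) / 2) := by
    intro N
    induction N with
    | zero => simp
    | succ N ih => rw [Finset.sum_range_succ, ih]; push_cast; ring
  rw [h2]
  push_cast
  ring

end Pool.Agent.MP_542436_nt.H22
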