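import Pool.Agent.MP_542436_nt.H22.SgB

set_option autoImplicit false

namespace Pool.Agent.MP_542436_nt.H22

open Polynomial NumberField Finset
open Pool.Agent.MP_542436_nt.Sp

theorem exp_id (d m n r : ℕ) (hr : r ≤ m) (x1 x2 t w : ℝ) :
    lhs d m n r x1 x2 t w + ∑ _j : Fin r, (((m : ℝ) + 1) * (w - m * ((x1 + x2) / 2))) * d =
      (((m : ℝ) + 1) * (w - m * ((x1 + x2) / 2))) * (n + 1 : ℕ) +
        ∑ j : Fin r, ((((m - (r - 2 * j) : ℕ) : ℝ) + 1) *
          ((w - t * (r - 2 * j : ℕ)) - (m - (r - 2 * j) : ℕ) * ((x1 + x2) / 2))) * d := by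
  have h1 : ∑ j : Fin r, ((((m - (r - 2 * j) : ℕ) : ℝ) + 1) *
      ((w - t * (r - 2 * j : ℕ)) - (m - (r - 2 * j) : ℕ) * ((x1 + x2) / 2))) * d =
      ∑ j : Fin r, ((((m : ℝ) + 1) * (w - m * ((x1 + x2) / 2))) * d -
        d * ((r - 2 * j : ℕ) : ℝ) * (w - m * ((x1 + x2) / 2)) -
        d * (((r - 2 * j) * (m + 1 - (r - 2 * j)) : ℕ) : ℝ) * (t - (x1 + x2) / 2)) := by
    apply Finset.sum_congr rfl
    intro j _
    have h2 : r - 2 * j ≤ m := by omega
    have h3 : r - 2 * j ≤ m + 1 := by omega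
    generalize r - 2 * (j : ℕ) = ρ at h2 h3
    rw [Nat.cast_mul, Nat.cast_sub h2, Nat.cast_sub h3]
    push_cast
    ring
  rw [h1, Finset.sum_sub_distrib, Finset.sum_sub_distrib, ← Finset.sum_mul, ← Finset.sum_mul,
    ← Finset.sum_mul, ← Finset.sum_mul, ← Finset.mul_sum, ← Finset.mul_sum,
    Fin.sum_univ_eq_sum_range (fun j => ((r - 2 * j : ℕ) : ℝ)) r,
    Fin.sum_univ_eq_sum_range (fun j => (((r - 2 * j) * (m + 1 - (r - 2 * j)) : ℕ) : ℝ)) r]
  simp only [lhs, rho, cee, Nat.cast_mul, Nat.cast_sum, Nat.cast_add, Nat.cast_one]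
  ring

/-- The box of integer polynomials. -/
theorem fbox_ex (m n : ℕ) {A B W : ℝ} (hA : 0 < A) (hB : 0 < B) (hW : 0 < W) :
    ∃ F : Finset ℤ[X][X], (∏ i ∈ range (m + 1), W / (A ^ i * B ^ (m - i))) ^ (n + 1) ≤ F.card ∧
      F.Nonempty ∧ ∀ f ∈ F, Dg (m + 1) (n + 1) f ∧ Nb m A B W f ∧
        ∀ g ∈ F, Nb m A B W (f - g) := by
  obtain ⟨F1, hc1, hm1⟩ := pbox_ex ℤ (m + 1) (fun i => Icc 0 ⌊W / (A ^ i * B ^ (m - i))⌋)
  obtain ⟨F, hc, hm⟩ := pbox_ex ℤ[X] (n + 1) (fun _ => F1)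
  have key : ∀ f ∈ F, ∀ i k, i ≤ m → 0 ≤ cf f i k ∧
      ((cf f i k : ℤ) : ℝ) ≤ W / (A ^ i * B ^ (m - i)) := by
    intro f hf i k hi
    by_cases hk : k < n + 1
    · have h1 := ((hm1 _).1 (((hm f).1 hf).1 k hk)).1 i (by omega)
      rw [mem_Icc] at h1
      exact ⟨h1.1, Int.le_floor.1 h1.2⟩
    · have h1 : cf f i k = 0 := by
        rw [cf, ((hm f).1 hf).2 k (not_lt.1 hk)]
        simp
      rw [h1]
      exact ⟨le_rfl, by push_cast; positivity⟩
  have nb : ∀ f : ℤ[X][X], (∀ i k, i ≤ m → |((cf f i k : ℤ) : ℝ)| ≤ W / (A ^ i * B ^ (m - i))) →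
      Nb m A B W f := by
    intro f hf i k hi
    have := hf i k hi
    rw [le_div_iff₀ (by positivity)] at this
    rw [mul_assoc]
    exact this
  have hcard : (∏ i ∈ range (m + 1), W / (A ^ i * B ^ (m - i))) ^ (n + 1) ≤ F.card := by
    rw [hc, Finset.prod_const, card_range, hc1]
    push_cast
    apply pow_le_pow_left₀ (Finset.prod_nonneg fun i _ => by positivity)
    apply Finset.prod_le_prod (fun i _ => by positivity)
    intro i _
    have h0 : 0 ≤ ⌊W / (A ^ i * B ^ (m - i))⌋ := Int.floor_nonneg.2 (by positivity)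
    have h1 : (((Icc 0 ⌊W / (A ^ i * B ^ (m - i))⌋).card : ℕ) : ℤ) =
        ⌊W / (A ^ i * B ^ (m - i))⌋ + 1 := by
      rw [Int.card_Icc]
      omega
    have h2 : (((Icc 0 ⌊W / (A ^ i * B ^ (m - i))⌋).card : ℕ) : ℝ) =
        (⌊W / (A ^ i * B ^ (m - i))⌋ : ℝ) + 1 := by exact_mod_cast h1
    rw [h2]
    exact (Int.lt_floor_add_one _).le
  refine ⟨F, hcard, ?_, fun f hf => ⟨?_, ?_, fun g hg => ?_⟩⟩
  · rw [← Finset.card_pos]
    have : (0 : ℝ) < F.card :=
      lt_of_lt_of_le (pow_pos (Finset.prod_pos fun i _ => by positivity) _) hcard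
    exact_mod_cast this
  · intro i k h
    have hk : k < n + 1 := by
      by_contra hk
      apply h
      rw [cf, ((hm f).1 hf).2 k (not_lt.1 hk)]
      simp
    refine ⟨?_, hk⟩
    by_contra hi
    exact h (((hm1 _).1 (((hm f).1 hf).1 k hk)).2 i (not_lt.1 hi))
  · apply nb
    intro i k hi
    have := key f hf i k hi
    rw [abs_of_nonneg (by exact_mod_cast this.1)]
    exact this.2
  · apply nb
    intro i k hi
    have h1 := key f hf i k hi
    have h2 := key g hg i k hi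
    have h3 : cf (f - g) i k = cf f i k - cf g i k := by simp [cf]
    have h4 : (0 : ℝ) ≤ ((cf f i k : ℤ) : ℝ) := by exact_mod_cast h1.1
    have h5 : (0 : ℝ) ≤ ((cf g i k : ℤ) : ℝ) := by exact_mod_cast h2.1
    rw [h3]
    push_cast
    rw [abs_le]
    constructor <;> linarith [h1.2, h2.2]

theorem lowbox_ex (K : Type) [Field K] [NumberField K] : ∃ c : ℝ, 0 < c ∧
    ∀ (e : ℕ) (A B V : ℝ), 0 < A → 0 < B → 0 < V → ∃ H : Finset K[X],
      c ^ (e + 1) * (∏ i ∈ range (e + 1), V / (A ^ i * B ^ (e - i))) ^ Module.finrank ℚ K ≤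
        H.card ∧ ∀ p ∈ H, Bd A B e V p := by
  obtain ⟨c, hc, h⟩ := low_ex K
  refine ⟨c, hc, fun e A B V hA hB hV => ?_⟩
  choose E hE using fun i : ℕ => h (V / (A ^ i * B ^ (e - i))) (by positivity)
  obtain ⟨H, hH, hm⟩ := pbox_ex K (e + 1) E
  refine ⟨H, ?_, fun p hp i => ?_⟩
  · rw [hH, ← Finset.prod_pow]
    have : c ^ (e + 1) = ∏ _i ∈ range (e + 1), c := by simp
    rw [this, ← Finset.prod_mul_distrib]
    push_cast
    exact Finset.prod_le_prod (fun i _ => by positivity) (fun i _ => (hE i).1)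
  · obtain ⟨h1, h2⟩ := (hm p).1 hp
    refine ⟨?_, fun hi => ?_, fun hi => h2 i hi⟩
    · by_cases hi : i < e + 1
      · exact ((hE i).2.2 _ (h1 i hi)).1
      · rw [h2 i (not_lt.1 hi)]
        exact isIntegral_zero
    · have := ((hE i).2.2 _ (h1 i (by omega))).2
      rw [le_div_iff₀ (by positivity)] at this
      rw [mul_assoc]
      exact this

theorem uppbox_ex (K : Type) [Field K] [NumberField K] : ∃ C : ℝ, 0 < C ∧
    ∀ (e : ℕ) (A B V : ℝ), 0 < A → 0 < B → (∀ i, i ≤ e → A ^ i * B ^ (e - i) ≤ V) →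
      ∃ H : Finset K[X], (H.card : ℝ) ≤
        C ^ (e + 1) * (∏ i ∈ range (e + 1), V / (A ^ i * B ^ (e - i))) ^ Module.finrank ℚ K ∧
        ∀ p, Bd A B e V p → p ∈ H := by
  obtain ⟨C, hC, h⟩ := upp_ex K
  refine ⟨C, hC, fun e A B V hA hB hV => ?_⟩
  choose E hE using fun i : ℕ => h (max 1 (V / (A ^ i * B ^ (e - i)))) (le_max_left _ _)
  obtain ⟨H, hH, hm⟩ := pbox_ex K (e + 1) E
  refine ⟨H, ?_, fun p hp => (hm p).2 ⟨fun i hi => ?_, fun i hi => (hp i).2.2 hi⟩⟩
  · rw [hH, ← Finset.prod_pow]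
    have : C ^ (e + 1) = ∏ _i ∈ range (e + 1), C := by simp
    rw [this, ← Finset.prod_mul_distrib]
    push_cast
    refine Finset.prod_le_prod (fun i _ => by positivity) (fun i hi => ?_)
    have h1 := (hE i).1
    rw [max_eq_right] at h1
    · exact h1
    · rw [le_div_iff₀ (by positivity), one_mul]
      exact hV i (by simpa [Nat.lt_succ_iff] using hi)
  · apply (hE i).2 _ (hp i).1
    apply le_max_of_le_right
    rw [le_div_iff₀ (by positivity), ← mul_assoc]
    exact (hp i).2.1 (by omega)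

theorem siegel : SiegelStmt := by
  classical
  intro K _ _ d θ hst m n r hr
  obtain ⟨cl, hcl, hlow⟩ := lowbox_ex K
  obtain ⟨Cu, hCu, hupp⟩ := uppbox_ex K
  rw [hst.rk] at hlow hupp
  set C1 : ℝ := ∑ j : Fin r, ∑ k ∈ range (n + 1), house (θ ^ (k - j) * (k.choose j : K)) with hC1
  have hC1j : ∀ j : Fin r, ∑ k ∈ range (n + 1), house (θ ^ (k - j) * (k.choose j : K)) ≤ C1 :=
    fun j => Finset.single_le_sum
      (f := fun j : Fin r => ∑ k ∈ range (n + 1), house (θ ^ (k - j) * (k.choose j : K)))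
      (fun j _ => Finset.sum_nonneg fun k _ => house_nonneg _) (mem_univ j)
  have hC10 : 0 ≤ C1 := Finset.sum_nonneg fun j _ => Finset.sum_nonneg fun k _ => house_nonneg _
  set C2 : ℝ := C1 + 2 ^ r with hC2
  have hC21 : 1 ≤ C2 := by
    have : (1 : ℝ) ≤ 2 ^ r := one_le_pow₀ (by norm_num)
    linarith
  set D1 : ℝ := ∏ j : Fin r, cl ^ (m - (r - 2 * j) + 1) with hD1
  set D2 : ℝ := ∏ _j : Fin r, Cu ^ (m + 1) * (C2 ^ (m + 1)) ^ d with hD2
  have hD10 : 0 < D1 := Finset.prod_pos fun j _ => by positivity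
  have hD20 : 0 < D2 := Finset.prod_pos fun j _ => by positivity
  refine ⟨D1 / D2, by positivity, fun X hX x1 x2 t w hx2 hx21 hw ω ζ0 ζ1 hrep => ?_⟩
  have hX0 : 0 < X := by linarith
  have hA : 0 < X ^ x1 := Real.rpow_pos_of_pos hX0 _
  have hB : 0 < X ^ x2 := Real.rpow_pos_of_pos hX0 _
  have hW : 0 < X ^ w := Real.rpow_pos_of_pos hX0 _
  have hAB : ∀ i, i ≤ m → (X ^ x1) ^ i * (X ^ x2) ^ (m - i) ≤ C2 * X ^ w := by
    intro i hi
    have h1 : X ^ x2 ≤ X ^ x1 := Real.rpow_le_rpow_of_exponent_le hX.le hx21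
    calc _ ≤ (X ^ x1) ^ i * (X ^ x1) ^ (m - i) := by gcongr
      _ = (X ^ x1) ^ m := by rw [← pow_add, Nat.add_sub_cancel' hi]
      _ = X ^ (x1 * m) := by rw [Real.rpow_mul hX0.le, Real.rpow_natCast]
      _ ≤ X ^ w := Real.rpow_le_rpow_of_exponent_le hX.le (by linarith)
      _ ≤ C2 * X ^ w := le_mul_of_one_le_left hW.le hC21
  obtain ⟨F, hFc, hFne, hF⟩ := fbox_ex m n hA hB hW
  choose H hH using fun j : Fin r => hlow (m - (r - 2 * j)) (X ^ x1) (X ^ x2)
    (X ^ (w - t * (r - 2 * j : ℕ))) hA hB (Real.rpow_pos_of_pos hX0 _)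
  obtain ⟨G, hGc, hG⟩ := hupp m (X ^ x1) (X ^ x2) (C2 * X ^ w) hA hB hAB
  set L : K[X] := C ζ0 * Polynomial.X + C ζ1 with hL
  set φ : ℤ[X][X] × (Fin r → K[X]) → (Fin r → K[X]) := fun z j =>
    (taylor (C θ) (up K z.1)).coeff j - L ^ (r - 2 * j) * z.2 j with hφ
  set S0 : Finset (ℤ[X][X] × (Fin r → K[X])) := F ×ˢ Fintype.piFinset H with hS0
  set T0 : Finset (Fin r → K[X]) := Fintype.piFinset (fun _ => G) with hT0
  -- cardinalities
  have hS0c : D1 * X ^ ((((m : ℝ) + 1) * (w - m * ((x1 + x2) / 2))) * (n + 1 : ℕ) +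
      ∑ j : Fin r, ((((m - (r - 2 * j) : ℕ) : ℝ) + 1) *
        ((w - t * (r - 2 * j : ℕ)) - (m - (r - 2 * j) : ℕ) * ((x1 + x2) / 2))) * d) ≤
      S0.card := by
    rw [hS0, card_product, Fintype.card_piFinset, Real.rpow_add hX0, Real.rpow_sum_of_pos hX0,
      Real.rpow_mul hX0.le, Real.rpow_natCast, mul_left_comm, hD1, ← Finset.prod_mul_distrib]
    rw [prod_w X hX0] at hFc
    push_cast
    refine mul_le_mul hFc (Finset.prod_le_prod (fun j _ => by positivity) fun j _ => ?_)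
      (Finset.prod_nonneg fun j _ => by positivity) (by positivity)
    have := (hH j).1
    rw [prod_w X hX0] at this
    rw [Real.rpow_mul hX0.le, Real.rpow_natCast]
    exact this
  have hT0c : (T0.card : ℝ) ≤
      D2 * X ^ (∑ _j : Fin r, (((m : ℝ) + 1) * (w - m * ((x1 + x2) / 2))) * d) := by
    rw [hT0, Fintype.card_piFinset, Real.rpow_sum_of_pos hX0, hD2, ← Finset.prod_mul_distrib]
    push_cast
    refine Finset.prod_le_prod (fun j _ => by positivity) fun j _ => ?_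
    have h1 : ∏ i ∈ range (m + 1), C2 * X ^ w / ((X ^ x1) ^ i * (X ^ x2) ^ (m - i)) =
        C2 ^ (m + 1) * ∏ i ∈ range (m + 1), X ^ w / ((X ^ x1) ^ i * (X ^ x2) ^ (m - i)) := by
      simp only [mul_div_assoc]
      rw [Finset.prod_mul_distrib]
      simp
    rw [h1, prod_w X hX0, mul_pow, ← mul_assoc] at hGc
    rw [Real.rpow_mul hX0.le, Real.rpow_natCast]
    exact hGc
  have hS0ne : S0.Nonempty := by
    rw [← Finset.card_pos]
    have : (0 : ℝ) < S0.card := lt_of_lt_of_le (by positivity) hS0c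
    exact_mod_cast this
  have hmaps : ∀ z ∈ S0, φ z ∈ T0 := by
    intro z hz
    rw [hS0, mem_product, Fintype.mem_piFinset] at hz
    rw [hT0, Fintype.mem_piFinset]
    intro j
    apply hG
    have b1 := (tay_bd θ hst.int m n j hA hB z.1 (hF _ hz.1).1 (hF _ hz.1).2.1).mono
      (mul_le_mul_of_nonneg_right (hC1j j) hW.le)
    have b2 := ((hH j).2 _ (hz.2 j)).pow hA hB hrep.i0 hrep.i1 hrep.h0 hrep.h1 (r - 2 * j)
    have e1 : m - (r - 2 * j) + (r - 2 * j) = m := by omega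
    rw [e1] at b2
    have b3 : (2 * X ^ t) ^ (r - 2 * j) * X ^ (w - t * (r - 2 * j : ℕ)) ≤ 2 ^ r * X ^ w := by
      rw [mul_pow, ← Real.rpow_natCast (X ^ t), ← Real.rpow_mul hX0.le, mul_assoc,
        ← Real.rpow_add hX0, add_sub_cancel]
      exact mul_le_mul_of_nonneg_right (pow_le_pow_right₀ (by norm_num) (by omega)) hW.le
    have := b1.sub hA hB (b2.mono b3)
    rw [← add_mul] at this
    exact this
  obtain ⟨z0, hz0, hfib⟩ := fibre_ex S0 T0 φ hS0ne hmaps
  have hL0 : L ≠ 0 := by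
    intro h
    have := congrArg (fun p => p.coeff 1) h
    simp [hL] at this
    exact hrep.ne this
  refine ⟨(S0.filter (fun z => φ z = φ z0)).image (fun z => z.1 - z0.1), ?_, ?_⟩
  · rw [Finset.card_image_of_injOn]
    · have h1 : (S0.card : ℝ) ≤ T0.card * (S0.filter (fun z => φ z = φ z0)).card := by
        exact_mod_cast hfib
      rw [← exp_id d m n r hr, Real.rpow_add hX0] at hS0c
      have h2 := hS0c.trans (h1.trans (mul_le_mul_of_nonneg_right hT0c (by positivity)))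
      set Y : ℝ := X ^ (∑ _j : Fin r, (((m : ℝ) + 1) * (w - m * ((x1 + x2) / 2))) * d) with hY
      have hY0 : 0 < Y := Real.rpow_pos_of_pos hX0 _
      rw [div_mul_eq_mul_div, div_le_iff₀ hD20]
      apply le_of_mul_le_mul_right _ hY0
      calc _ = D1 * (X ^ lhs d m n r x1 x2 t w * Y) := by ring
        _ ≤ _ := h2
        _ = _ := by ring
    · intro z hz z' hz' h
      have h1 : z.1 = z'.1 := sub_left_inj.1 h
      have h2 : φ z = φ z' := (mem_filter.1 hz).2.trans (mem_filter.1 hz').2.symm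
      refine Prod.ext h1 (funext fun j => ?_)
      have h3 := congrFun h2 j
      simp only [hφ, h1, sub_right_inj] at h3
      exact mul_left_cancel₀ (pow_ne_zero _ hL0) h3
  · intro f hf
    obtain ⟨z, hz, rfl⟩ := mem_image.1 hf
    obtain ⟨hz1, hz2⟩ := mem_filter.1 hz
    have m1 : z.1 ∈ F := (mem_product.1 hz1).1
    have m0 : z0.1 ∈ F := (mem_product.1 hz0).1
    refine ⟨fun i k h => ?_, fun j => ?_, (hF _ m1).2.2 _ m0⟩
    · by_cases h1 : cf z.1 i k = 0
      · apply (hF _ m0).1 i k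
        intro h2
        apply h
        simp only [cf, coeff_sub] at *
        rw [h1, h2, sub_zero]
      · exact (hF _ m1).1 i k h1
    · by_cases hj : j < r
      · have h3 := congrFun hz2 ⟨j, hj⟩
        simp only [hφ] at h3
        have h4 : (taylor (C θ) (up K (z.1 - z0.1))).coeff j =
            L ^ (r - 2 * j) * (z.2 ⟨j, hj⟩ - z0.2 ⟨j, hj⟩) := by
          simp only [up, Polynomial.map_sub, map_sub, coeff_sub] at h3 ⊢
          linear_combination h3
        have h5 : L = (Polynomial.X - C ω) * C ζ0 := by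
          rw [hL, sub_mul, ← C_mul, hrep.eq, div_mul_cancel₀ _ hrep.ne, C_neg]
          ring
        rw [h4, h5, mul_pow, mul_assoc]
        exact dvd_mul_right _ _
      · have : r - 2 * j = 0 := by omega
        rw [this, pow_zero]
        exact one_dvd _

end Pool.Agent.MP_542436_nt.H22
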