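import Pool.Agent.MP_542436_nt.H5.Defs

set_option autoImplicit false

namespace Pool.Agent.MP_542436_nt.H22

open Polynomial Pool.Agent.MP_542436_nt.H5

theorem mem_box {B : ℕ} {t : ℤ × ℤ} :
    t ∈ box B ↔ |t.1| ≤ B ∧ |t.2| ≤ B ∧ Int.gcd t.1 t.2 = 1 := by
  simp only [box, Finset.mem_filter, Finset.mem_product, Finset.mem_Icc, abs_le, and_assoc]

theorem eq_of_dt {t u : ℤ × ℤ} (ht : Int.gcd t.1 t.2 = 1) (hu : Int.gcd u.1 u.2 = 1)
    (ht2 : 0 < t.2) (hu2 : 0 < u.2) (h : dt t u = 0) : t = u := by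
  have h' : t.1 * u.2 = t.2 * u.1 := by unfold dt at h; linarith
  have h1 : t.2 ∣ u.2 := by
    have : t.2 ∣ t.1 * u.2 := ⟨u.1, h'⟩
    exact Int.dvd_of_dvd_mul_right_of_gcd_one this (by rw [Int.gcd_comm]; exact ht)
  have h2 : u.2 ∣ t.2 := by
    have : u.2 ∣ u.1 * t.2 := ⟨t.1, by linarith⟩
    exact Int.dvd_of_dvd_mul_right_of_gcd_one this (by rw [Int.gcd_comm]; exact hu)
  have e2 : t.2 = u.2 := Int.dvd_antisymm ht2.le hu2.le h1 h2
  have e1 : t.1 = u.1 := by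
    rw [← e2, mul_comm t.2] at h'
    exact mul_right_cancel₀ ht2.ne' h'
  exact Prod.ext e1 e2

theorem pos_of_sector {t : ℤ × ℤ} (ht : Int.gcd t.1 t.2 = 1) (h : |t.1| ≤ t.2) : 0 < t.2 := by
  rcases (le_trans (abs_nonneg _) h).lt_or_eq with h0 | h0
  · exact h0
  · rw [← h0] at h ht
    have : t.1 = 0 := abs_nonpos_iff.1 h
    rw [this] at ht
    simp at ht

theorem sector (n B : ℕ) (W : ℝ) (hW : 0 < W) (S : Finset (ℤ × ℤ)) (φ : ℤ × ℤ → ℤ × ℤ)
    (hφ : ∀ t u, dt (φ t) (φ u) = dt t u ∨ dt (φ t) (φ u) = -dt t u)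
    (hinj : Function.Injective φ)
    (hS : ∀ t ∈ S, φ t ∈ box B ∧ |(φ t).1| ≤ (φ t).2)
    (H : ∀ f : Fin (n + 1) → ℤ × ℤ, (∀ j, f j ∈ S) → (∀ i j, i ≠ j → dt (f i) (f j) ≠ 0) →
      ∃ i j, W ≤ |(dt (f i) (f j) : ℝ)|) :
    (S.card : ℝ) ≤ n * (2 * (B : ℝ) ^ 2 / W + 1) := by
  classical
  set β : ℤ × ℤ → ℕ := fun t => ⌊(((φ t).1 : ℝ) / (φ t).2 + 1) * (B : ℝ) ^ 2 / W⌋₊ with hβ
  have hpos : ∀ t ∈ S, 0 < (φ t).2 := fun t ht =>
    pos_of_sector (mem_box.1 (hS t ht).1).2.2 (hS t ht).2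
  have hsl : ∀ t ∈ S, |((φ t).1 : ℝ) / (φ t).2| ≤ 1 := fun t ht => by
    have h2 : (0 : ℝ) < (φ t).2 := by exact_mod_cast hpos t ht
    rw [abs_div, abs_of_pos h2, div_le_one h2]
    exact_mod_cast (hS t ht).2
  have hmap : ∀ t ∈ S, β t ∈ Finset.range (⌊2 * (B : ℝ) ^ 2 / W⌋₊ + 1) := fun t ht => by
    rw [Finset.mem_range, Nat.lt_succ_iff]
    refine Nat.floor_mono ?_
    have := (abs_le.1 (hsl t ht)).2
    gcongr
    linarith
  have hfib : ∀ b ∈ Finset.range (⌊2 * (B : ℝ) ^ 2 / W⌋₊ + 1),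
      (S.filter (fun t => β t = b)).card ≤ n := by
    intro b _
    by_contra hc
    push Not at hc
    obtain ⟨T, hT, hTc⟩ := Finset.exists_subset_card_eq (Nat.succ_le_of_lt hc)
    let e := T.equivFinOfCardEq hTc
    let f : Fin (n + 1) → ℤ × ℤ := fun j => (e.symm j : ℤ × ℤ)
    have hf : ∀ j, f j ∈ S ∧ β (f j) = b := fun j =>
      Finset.mem_filter.1 (hT (e.symm j).2)
    have hne : ∀ i j, i ≠ j → dt (f i) (f j) ≠ 0 := by
      intro i j hij h0
      have h1 : dt (φ (f i)) (φ (f j)) = 0 := by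
        rcases hφ (f i) (f j) with h | h <;> rw [h, h0]
        simp
      have h2 := hinj (eq_of_dt (mem_box.1 (hS _ (hf i).1).1).2.2
        (mem_box.1 (hS _ (hf j).1).1).2.2 (hpos _ (hf i).1) (hpos _ (hf j).1) h1)
      exact hij (e.symm.injective (Subtype.ext h2))
    obtain ⟨i, j, hij⟩ := H f (fun j => (hf j).1) hne
    have habs : |(dt (f i) (f j) : ℝ)| = |(dt (φ (f i)) (φ (f j)) : ℝ)| := by
      rcases hφ (f i) (f j) with h | h <;> rw [h]
      simp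
    rw [habs] at hij
    have hi := hf i
    have hj := hf j
    have hi2 : (0 : ℝ) < (φ (f i)).2 := by exact_mod_cast hpos _ hi.1
    have hj2 : (0 : ℝ) < (φ (f j)).2 := by exact_mod_cast hpos _ hj.1
    have hiB : ((φ (f i)).2 : ℝ) ≤ B := by
      have := (mem_box.1 (hS _ hi.1).1).2.1
      exact_mod_cast (le_abs_self _).trans this
    have hjB : ((φ (f j)).2 : ℝ) ≤ B := by
      have := (mem_box.1 (hS _ hj.1).1).2.1
      exact_mod_cast (le_abs_self _).trans this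
    have hB : (0 : ℝ) < B := lt_of_lt_of_le hi2 hiB
    set x : ℝ := ((φ (f i)).1 : ℝ) / (φ (f i)).2 with hx
    set y : ℝ := ((φ (f j)).1 : ℝ) / (φ (f j)).2 with hy
    have hx0 : 0 ≤ (x + 1) * (B : ℝ) ^ 2 / W := by
      have := (abs_le.1 (hsl _ hi.1)).1
      have : 0 ≤ x + 1 := by linarith
      positivity
    have hy0 : 0 ≤ (y + 1) * (B : ℝ) ^ 2 / W := by
      have := (abs_le.1 (hsl _ hj.1)).1
      have : 0 ≤ y + 1 := by linarith
      positivity
    have hxb := (Nat.floor_eq_iff hx0).1 hi.2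
    have hyb := (Nat.floor_eq_iff hy0).1 hj.2
    have hd : |x - y| * (B : ℝ) ^ 2 / W < 1 := by
      have e1 : |x - y| * (B : ℝ) ^ 2 / W =
          |(x + 1) * (B : ℝ) ^ 2 / W - (y + 1) * (B : ℝ) ^ 2 / W| := by
        rw [show (x + 1) * (B : ℝ) ^ 2 / W - (y + 1) * (B : ℝ) ^ 2 / W =
          (x - y) * ((B : ℝ) ^ 2 / W) by ring, abs_mul,
          abs_of_pos (by positivity : (0 : ℝ) < (B : ℝ) ^ 2 / W)]
        ring
      rw [e1, abs_lt]
      constructor <;> linarith [hxb.1, hxb.2, hyb.1, hyb.2]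
    rw [div_lt_one hW] at hd
    have e2 : (dt (φ (f i)) (φ (f j)) : ℝ) = (x - y) * ((φ (f i)).2 * (φ (f j)).2) := by
      simp only [dt, hx, hy]
      push_cast
      field_simp
    rw [e2, abs_mul, abs_of_pos (mul_pos hi2 hj2)] at hij
    have : |x - y| * (((φ (f i)).2 : ℝ) * (φ (f j)).2) ≤ |x - y| * (B : ℝ) ^ 2 := by
      rw [sq]; gcongr
    linarith
  have hcard := Finset.card_le_mul_card_image_of_maps_to hmap n hfib
  rw [Finset.card_range] at hcard
  have h2 : ((⌊2 * (B : ℝ) ^ 2 / W⌋₊ : ℕ) : ℝ) ≤ 2 * (B : ℝ) ^ 2 / W :=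
    Nat.floor_le (by positivity)
  calc (S.card : ℝ) ≤ ((n * (⌊2 * (B : ℝ) ^ 2 / W⌋₊ + 1) : ℕ) : ℝ) := by exact_mod_cast hcard
    _ ≤ _ := by push_cast; gcongr

theorem slope : SlopeStmt := by
  classical
  intro n B W hW S hS H
  have key : ∀ (φ : ℤ × ℤ → ℤ × ℤ),
      (∀ t u, dt (φ t) (φ u) = dt t u ∨ dt (φ t) (φ u) = -dt t u) → Function.Injective φ →
      (∀ t ∈ box B, φ t ∈ box B) →
      ((S.filter (fun t => |(φ t).1| ≤ (φ t).2)).card : ℝ) ≤ n * (2 * (B : ℝ) ^ 2 / W + 1) := by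
    intro φ h1 h2 h3
    refine sector n B W hW _ φ h1 h2 (fun t ht => ?_) (fun f hf => H f fun j => ?_)
    · rw [Finset.mem_filter] at ht
      exact ⟨h3 t (hS ht.1), ht.2⟩
    · exact (Finset.mem_filter.1 (hf j)).1
  have k1 := key (fun t => t) (fun t u => Or.inl rfl) (fun _ _ h => h) (fun _ h => h)
  have k2 := key (fun t => (-t.1, -t.2)) (fun t u => Or.inl (by simp [dt]))
    (fun t u h => by
      simp only [Prod.mk.injEq, neg_inj] at h
      exact Prod.ext h.1 h.2)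
    (fun t h => by simpa [mem_box] using h)
  have k3 := key (fun t => (t.2, t.1)) (fun t u => Or.inr (by simp only [dt]; ring))
    (fun t u h => by
      simp only [Prod.mk.injEq] at h
      exact Prod.ext h.2 h.1)
    (fun t h => by
      rw [mem_box] at h ⊢
      exact ⟨h.2.1, h.1, by rw [Int.gcd_comm]; exact h.2.2⟩)
  have k4 := key (fun t => (-t.2, -t.1)) (fun t u => Or.inr (by simp only [dt]; ring))
    (fun t u h => by
      simp only [Prod.mk.injEq, neg_inj] at h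
      exact Prod.ext h.2 h.1)
    (fun t h => by
      rw [mem_box] at h ⊢
      refine ⟨by simpa using h.2.1, by simpa using h.1, ?_⟩
      simp only [Int.gcd_neg, Int.neg_gcd]
      rw [Int.gcd_comm]; exact h.2.2)
  have hsub : S ⊆ ((S.filter (fun t => |t.1| ≤ t.2) ∪ S.filter (fun t => |-t.1| ≤ -t.2)) ∪
      S.filter (fun t => |t.2| ≤ t.1)) ∪ S.filter (fun t => |-t.2| ≤ -t.1) := by
    intro t ht
    simp only [Finset.mem_union, Finset.mem_filter, ht, true_and, abs_le]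
    omega
  have hc := Finset.card_le_card hsub
  have u1 := Finset.card_union_le ((S.filter (fun t => |t.1| ≤ t.2) ∪
    S.filter (fun t => |-t.1| ≤ -t.2)) ∪ S.filter (fun t => |t.2| ≤ t.1))
    (S.filter (fun t => |-t.2| ≤ -t.1))
  have u2 := Finset.card_union_le (S.filter (fun t => |t.1| ≤ t.2) ∪
    S.filter (fun t => |-t.1| ≤ -t.2)) (S.filter (fun t => |t.2| ≤ t.1))
  have u3 := Finset.card_union_le (S.filter (fun t => |t.1| ≤ t.2))
    (S.filter (fun t => |-t.1| ≤ -t.2))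
  have hN : S.card ≤ (S.filter (fun t => |t.1| ≤ t.2)).card +
      (S.filter (fun t => |-t.1| ≤ -t.2)).card + (S.filter (fun t => |t.2| ≤ t.1)).card +
      (S.filter (fun t => |-t.2| ≤ -t.1)).card := by omega
  have hR : (S.card : ℝ) ≤ ((S.filter (fun t => |t.1| ≤ t.2)).card : ℝ) +
      (S.filter (fun t => |-t.1| ≤ -t.2)).card + (S.filter (fun t => |t.2| ≤ t.1)).card +
      (S.filter (fun t => |-t.2| ≤ -t.1)).card := by exact_mod_cast hN
  simp only at k1 k2 k3 k4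
  linarith

end Pool.Agent.MP_542436_nt.H22
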